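import Pool.Agent.Helper10.SP.GoalsI
import Pool.Agent.Helper95.Lin.Basics

/-! # RLT: the curvature is real on a commutative family that kills the period map -/

open Complex Metric Set Filter Topology MeasureTheory
open scoped ContDiff ComplexConjugate ComplexOrder Manifold

namespace Pool.Agent.Helper39.SP

open Pool.Agent.Helper95.Lin Pool.Agent.Helper16.Abund Pool.Agent.Helper92.Orb
open Pool.Agent.Helper10.SP

section calculus

variable {n : ℕ}

lemma diffAt {W : Set (Cn n)} (hW : IsOpen W) {f : Cn n → ℂ} (hf : ContDiffOn ℝ ∞ f W) {z : Cn n}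
    (hz : z ∈ W) : DifferentiableAt ℝ f z :=
  ((hf.contDiffAt (hW.mem_nhds hz)).differentiableAt (by simp))

lemma cd_sum {ι : Type*} (s : Finset ι) (F : ι → Cn n → ℂ) (l : Fin n) (z : Cn n)
    (hF : ∀ j ∈ s, DifferentiableAt ℝ (F j) z) :
    cd l (fun y => ∑ j ∈ s, F j y) z = ∑ j ∈ s, cd l (F j) z := by
  unfold cd
  rw [fderiv_fun_sum hF]
  simp only [sum_apply, Finset.mul_sum, Finset.sum_sub_distrib]

lemma cdb_sum {ι : Type*} (s : Finset ι) (F : ι → Cn n → ℂ) (l : Fin n) (z : Cn n)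
    (hF : ∀ j ∈ s, DifferentiableAt ℝ (F j) z) :
    cdb l (fun y => ∑ j ∈ s, F j y) z = ∑ j ∈ s, cdb l (F j) z := by
  unfold cdb
  rw [fderiv_fun_sum hF]
  simp only [sum_apply, Finset.mul_sum, Finset.sum_add_distrib]

lemma cd_congr {f g : Cn n → ℂ} {W : Set (Cn n)} (hW : IsOpen W) (h : ∀ y ∈ W, f y = g y)
    (l : Fin n) {z : Cn n} (hz : z ∈ W) : cd l f z = cd l g z := by
  have he : f =ᶠ[𝓝 z] g := Filter.eventuallyEq_of_mem (hW.mem_nhds hz) h
  unfold cd
  rw [he.fderiv_eq]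

lemma cd_zero' {f : Cn n → ℂ} {W : Set (Cn n)} (hW : IsOpen W) (h : ∀ y ∈ W, f y = 0)
    (l : Fin n) {z : Cn n} (hz : z ∈ W) : cd l f z = 0 := by
  rw [cd_congr (g := fun _ => 0) hW h l hz]
  unfold cd
  simp

lemma cd_neg' (f : Cn n → ℂ) (l : Fin n) (z : Cn n) : cd l (fun y => - f y) z = - cd l f z := by
  unfold cd
  rw [fderiv_fun_neg]
  simp only [neg_apply]
  ring

lemma comp_holo {W : Set (Cn n)} {V : Cn n → Cn n}
    (hV : DifferentiableOn ℂ V W) (j : Fin n) : DifferentiableOn ℂ (fun y => V y j) W := by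
  intro z hz
  exact (differentiableWithinAt_pi.1 (hV z hz)) j

/-- the Wirtinger derivative of a holomorphic function -/
lemma cd_holo {f : Cn n → ℂ} {z : Cn n} (hf : DifferentiableAt ℂ f z) (l : Fin n) :
    cd l f z = 2 * fderiv ℂ f z (Pi.single l 1) := by
  unfold cd
  rw [hf.fderiv_restrictScalars ℝ]
  simp only [ContinuousLinearMap.coe_restrictScalars']
  have h1 : (Pi.single l I : Cn n) = I • Pi.single l 1 := by
    rw [← Pi.single_smul]; simp
  rw [h1, map_smul, smul_eq_mul, ← mul_assoc, I_mul_I]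
  ring

lemma sum_cd_holo {V : Cn n → Cn n} {z : Cn n} (hV : DifferentiableAt ℂ V z) (a : Cn n)
    (j : Fin n) : ∑ l, a l * cd l (fun y => V y j) z = 2 * fderiv ℂ V z a j := by
  have hj : DifferentiableAt ℂ (fun y => V y j) z := (differentiableAt_pi.1 hV) j
  have h1 : fderiv ℂ (fun y => V y j) z = (ContinuousLinearMap.proj j).comp (fderiv ℂ V z) := by
    exact ((ContinuousLinearMap.proj (R := ℂ) (φ := fun _ : Fin n => ℂ) j).hasFDerivAt.comp z
      hV.hasFDerivAt).fderiv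
  have h2 : a = ∑ l, a l • (Pi.single l 1 : Cn n) := by
    ext i
    simp [Finset.sum_apply, Pi.single_apply]
  have h3 : fderiv ℂ V z a j = ∑ l, a l * fderiv ℂ V z (Pi.single l 1) j := by
    conv_lhs => rw [h2]
    rw [map_sum, Finset.sum_apply]
    apply Finset.sum_congr rfl
    intro l _
    rw [map_smul]
    simp
  rw [h3, Finset.mul_sum]
  apply Finset.sum_congr rfl
  intro l _
  rw [cd_holo hj, h1]
  simp only [ContinuousLinearMap.comp_apply, ContinuousLinearMap.proj_apply]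
  ring

/-- the divergence with a general complex potential -/
noncomputable def hh (ℓ : Cn n → ℂ) (V : Cn n → Cn n) (z : Cn n) : ℂ :=
  ∑ j, (cd j ℓ z * V z j + cd j (fun y => V y j) z)

variable (hWIRT : S_WIRT) {W : Set (Cn n)} (hW : IsOpen W)

include hWIRT hW

lemma cdb_hh {ℓ : Cn n → ℂ} (hℓ : ContDiffOn ℝ ∞ ℓ W) {V : Cn n → Cn n}
    (hV : DifferentiableOn ℂ V W) (l : Fin n) {z : Cn n} (hz : z ∈ W) :
    cdb l (hh ℓ V) z = ∑ j, cd j (cdb l ℓ) z * V z j := by
  have hVs : ∀ j, ContDiffOn ℝ ∞ (fun y => V y j) W := fun j =>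
    holo_contDiffOn_real hW (comp_holo hV j)
  have hw1 := hWIRT W hW ℓ ℓ hℓ hℓ
  have hcdℓ : ∀ j, ContDiffOn ℝ ∞ (cd j ℓ) W := fun j => (hw1.1 j).1
  have hcdV : ∀ j m, ContDiffOn ℝ ∞ (cd m (fun y => V y j)) W := fun j m =>
    ((hWIRT W hW _ _ (hVs j) (hVs j)).1 m).1
  have hcdbV : ∀ j m, ∀ y ∈ W, cdb m (fun y => V y j) y = 0 := fun j m y hy =>
    ((hWIRT W hW _ _ (hVs j) (hVs j)).2.2.2.2.2).2 (comp_holo hV j) m y hy
  have hdiff : ∀ j ∈ Finset.univ, DifferentiableAt ℝ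
      (fun y => cd j ℓ y * V y j + cd j (fun y => V y j) y) z := fun j _ =>
    ((diffAt hW (hcdℓ j) hz).mul (diffAt hW (hVs j) hz)).add (diffAt hW (hcdV j j) hz)
  have h1 : cdb l (hh ℓ V) z = ∑ j, cdb l
      (fun y => cd j ℓ y * V y j + cd j (fun y => V y j) y) z := cdb_sum _ _ l z hdiff
  rw [h1]
  apply Finset.sum_congr rfl
  intro j _
  have hmul : ContDiffOn ℝ ∞ (fun y => cd j ℓ y * V y j) W := (hcdℓ j).mul (hVs j)
  have h2 := ((hWIRT W hW _ _ hmul (hcdV j j)).2.1 l z hz).2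
  have h3 := ((hWIRT W hW _ _ (hcdℓ j) (hVs j)).2.2.1 l z hz).2
  have h4 := ((hWIRT W hW _ _ (hVs j) (hVs j)).2.2.2.2.1 j l z hz).2.2
  have h5 := (hw1.2.2.2.2.1 j l z hz).2.2
  rw [h2, h3, ← h4, ← h5, cd_zero' hW (hcdbV j l) j hz, hcdbV j l z hz]
  ring

lemma smooth_hh {ℓ : Cn n → ℂ} (hℓ : ContDiffOn ℝ ∞ ℓ W) {V : Cn n → Cn n}
    (hV : DifferentiableOn ℂ V W) : ContDiffOn ℝ ∞ (hh ℓ V) W := by
  have hVs : ∀ j, ContDiffOn ℝ ∞ (fun y => V y j) W := fun j =>
    holo_contDiffOn_real hW (comp_holo hV j)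
  have hw1 := hWIRT W hW ℓ ℓ hℓ hℓ
  have hcdℓ : ∀ j, ContDiffOn ℝ ∞ (cd j ℓ) W := fun j => (hw1.1 j).1
  have hcdV : ∀ j m, ContDiffOn ℝ ∞ (cd m (fun y => V y j)) W := fun j m =>
    ((hWIRT W hW _ _ (hVs j) (hVs j)).1 m).1
  unfold hh
  apply ContDiffOn.sum
  intro j _
  exact ((hcdℓ j).mul (hVs j)).add (hcdV j j)

lemma cd_hh {ℓ : Cn n → ℂ} (hℓ : ContDiffOn ℝ ∞ ℓ W) {V : Cn n → Cn n}
    (hV : DifferentiableOn ℂ V W) (l : Fin n) {z : Cn n} (hz : z ∈ W) :
    cd l (hh ℓ V) z = ∑ j, (cd j ℓ z * cd l (fun y => V y j) z + V z j * cd l (cd j ℓ) z +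
      cd l (cd j (fun y => V y j)) z) := by
  have hVs : ∀ j, ContDiffOn ℝ ∞ (fun y => V y j) W := fun j =>
    holo_contDiffOn_real hW (comp_holo hV j)
  have hw1 := hWIRT W hW ℓ ℓ hℓ hℓ
  have hcdℓ : ∀ j, ContDiffOn ℝ ∞ (cd j ℓ) W := fun j => (hw1.1 j).1
  have hcdV : ∀ j m, ContDiffOn ℝ ∞ (cd m (fun y => V y j)) W := fun j m =>
    ((hWIRT W hW _ _ (hVs j) (hVs j)).1 m).1
  have hdiff : ∀ j ∈ Finset.univ, DifferentiableAt ℝ
      (fun y => cd j ℓ y * V y j + cd j (fun y => V y j) y) z := fun j _ =>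
    ((diffAt hW (hcdℓ j) hz).mul (diffAt hW (hVs j) hz)).add (diffAt hW (hcdV j j) hz)
  have h1 : cd l (hh ℓ V) z = ∑ j, cd l
      (fun y => cd j ℓ y * V y j + cd j (fun y => V y j) y) z := cd_sum _ _ l z hdiff
  rw [h1]
  apply Finset.sum_congr rfl
  intro j _
  have hmul : ContDiffOn ℝ ∞ (fun y => cd j ℓ y * V y j) W := (hcdℓ j).mul (hVs j)
  have h2 := ((hWIRT W hW _ _ hmul (hcdV j j)).2.1 l z hz).1
  have h3 := ((hWIRT W hW _ _ (hcdℓ j) (hVs j)).2.2.1 l z hz).1
  rw [h2, h3]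

/-- the first order commutation, differentiated and summed -/
lemma comm2 {U V : Cn n → Cn n} (hU : DifferentiableOn ℂ U W) (hV : DifferentiableOn ℂ V W)
    (hc : ∀ z ∈ W, fderiv ℂ U z (V z) = fderiv ℂ V z (U z)) {z : Cn n} (hz : z ∈ W) :
    (∀ j, ∑ l, (V z l * cd l (fun y => U y j) z - U z l * cd l (fun y => V y j) z) = 0) ∧
    ∑ j, ∑ l, (V z l * cd l (cd j (fun y => U y j)) z - U z l * cd l (cd j (fun y => V y j)) z)
      = 0 := by
  have hUs : ∀ j, ContDiffOn ℝ ∞ (fun y => U y j) W := fun j =>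
    holo_contDiffOn_real hW (comp_holo hU j)
  have hVs : ∀ j, ContDiffOn ℝ ∞ (fun y => V y j) W := fun j =>
    holo_contDiffOn_real hW (comp_holo hV j)
  have hcdU : ∀ j m, ContDiffOn ℝ ∞ (cd m (fun y => U y j)) W := fun j m =>
    ((hWIRT W hW _ _ (hUs j) (hUs j)).1 m).1
  have hcdV : ∀ j m, ContDiffOn ℝ ∞ (cd m (fun y => V y j)) W := fun j m =>
    ((hWIRT W hW _ _ (hVs j) (hVs j)).1 m).1
  have hD : ∀ j, ∀ y ∈ W,
      ∑ l, (V y l * cd l (fun y => U y j) y - U y l * cd l (fun y => V y j) y) = 0 := by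
    intro j y hy
    rw [Finset.sum_sub_distrib,
      sum_cd_holo (hU.differentiableAt (hW.mem_nhds hy)) (V y) j,
      sum_cd_holo (hV.differentiableAt (hW.mem_nhds hy)) (U y) j, hc y hy]
    ring
  refine ⟨fun j => hD j z hz, ?_⟩
  -- differentiate the `j`-th identity in direction `j`
  have hE : ∀ j, ∑ l, (V z l * cd j (cd l (fun y => U y j)) z +
      cd l (fun y => U y j) z * cd j (fun y => V y l) z -
      (U z l * cd j (cd l (fun y => V y j)) z +
        cd l (fun y => V y j) z * cd j (fun y => U y l) z)) = 0 := by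
    intro j
    have h0 := cd_zero' hW (hD j) j hz
    have hdl : ∀ l ∈ Finset.univ, DifferentiableAt ℝ
        (fun y => V y l * cd l (fun y => U y j) y - U y l * cd l (fun y => V y j) y) z := fun l _ =>
      ((diffAt hW (hVs l) hz).mul (diffAt hW (hcdU j l) hz)).sub
        ((diffAt hW (hUs l) hz).mul (diffAt hW (hcdV j l) hz))
    rw [cd_sum _ _ j z hdl] at h0
    rw [← h0]
    apply Finset.sum_congr rfl
    intro l _
    have m1 : ContDiffOn ℝ ∞ (fun y => V y l * cd l (fun y => U y j) y) W :=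
      (hVs l).mul (hcdU j l)
    have m2 : ContDiffOn ℝ ∞ (fun y => U y l * cd l (fun y => V y j) y) W :=
      (hUs l).mul (hcdV j l)
    have h2 := ((hWIRT W hW _ _ m1 m2.neg).2.1 j z hz).1
    have h3 := ((hWIRT W hW _ _ (hVs l) (hcdU j l)).2.2.1 j z hz).1
    have h4 := ((hWIRT W hW _ _ (hUs l) (hcdV j l)).2.2.1 j z hz).1
    have h5 : cd j (fun y => V y l * cd l (fun y => U y j) y - U y l * cd l (fun y => V y j) y) z
        = cd j (fun y => V y l * cd l (fun y => U y j) y) z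
          - cd j (fun y => U y l * cd l (fun y => V y j) y) z := by
      have e1 : (fun y => V y l * cd l (fun y => U y j) y - U y l * cd l (fun y => V y j) y)
          = fun y => V y l * cd l (fun y => U y j) y + -(U y l * cd l (fun y => V y j) y) := by
        funext y
        ring
      rw [e1, h2, cd_neg' (fun y => U y l * cd l (fun y => V y j) y) j z]
      ring
    rw [h5, h3, h4]
  have hsum : ∑ j, ∑ l, (V z l * cd j (cd l (fun y => U y j)) z +
      cd l (fun y => U y j) z * cd j (fun y => V y l) z -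
      (U z l * cd j (cd l (fun y => V y j)) z +
        cd l (fun y => V y j) z * cd j (fun y => U y l) z)) = 0 :=
    Finset.sum_eq_zero fun j _ => hE j
  have hswap : ∑ j, ∑ l, cd l (fun y => U y j) z * cd j (fun y => V y l) z
      = ∑ j, ∑ l, cd l (fun y => V y j) z * cd j (fun y => U y l) z := by
    rw [Finset.sum_comm]
    apply Finset.sum_congr rfl
    intro j _
    apply Finset.sum_congr rfl
    intro l _
    ring
  have hsymU : ∀ j l, cd l (cd j (fun y => U y j)) z = cd j (cd l (fun y => U y j)) z :=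
    fun j l => ((hWIRT W hW _ _ (hUs j) (hUs j)).2.2.2.2.1 l j z hz).1
  have hsymV : ∀ j l, cd l (cd j (fun y => V y j)) z = cd j (cd l (fun y => V y j)) z :=
    fun j l => ((hWIRT W hW _ _ (hVs j) (hVs j)).2.2.2.2.1 l j z hz).1
  have hfin : ∑ j, ∑ l, (V z l * cd l (cd j (fun y => U y j)) z -
      U z l * cd l (cd j (fun y => V y j)) z)
      = ∑ j, ∑ l, (V z l * cd j (cd l (fun y => U y j)) z +
        cd l (fun y => U y j) z * cd j (fun y => V y l) z -
        (U z l * cd j (cd l (fun y => V y j)) z +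
          cd l (fun y => V y j) z * cd j (fun y => U y l) z))
        - (∑ j, ∑ l, cd l (fun y => U y j) z * cd j (fun y => V y l) z
          - ∑ j, ∑ l, cd l (fun y => V y j) z * cd j (fun y => U y l) z) := by
    rw [← Finset.sum_sub_distrib, ← Finset.sum_sub_distrib]
    apply Finset.sum_congr rfl
    intro j _
    rw [← Finset.sum_sub_distrib, ← Finset.sum_sub_distrib]
    apply Finset.sum_congr rfl
    intro l _
    rw [hsymU, hsymV]
    ring
  rw [hfin, hsum, hswap]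
  ring

/-- the divergences of commuting fields -/
lemma comm3 {ℓ : Cn n → ℂ} (hℓ : ContDiffOn ℝ ∞ ℓ W) {U V : Cn n → Cn n}
    (hU : DifferentiableOn ℂ U W) (hV : DifferentiableOn ℂ V W)
    (hc : ∀ z ∈ W, fderiv ℂ U z (V z) = fderiv ℂ V z (U z)) {z : Cn n} (hz : z ∈ W) :
    ∑ l, V z l * cd l (hh ℓ U) z = ∑ l, U z l * cd l (hh ℓ V) z := by
  obtain ⟨c1, c2⟩ := comm2 hWIRT hW hU hV hc hz
  have hw1 := hWIRT W hW ℓ ℓ hℓ hℓ
  have hsym : ∀ j l, cd l (cd j ℓ) z = cd j (cd l ℓ) z := fun j l =>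
    (hw1.2.2.2.2.1 l j z hz).1
  rw [← sub_eq_zero, ← Finset.sum_sub_distrib]
  have h1 : ∀ l, V z l * cd l (hh ℓ U) z - U z l * cd l (hh ℓ V) z
      = ∑ j, (cd j ℓ z * (V z l * cd l (fun y => U y j) z - U z l * cd l (fun y => V y j) z)
        + (V z l * U z j * cd l (cd j ℓ) z - U z l * V z j * cd l (cd j ℓ) z)
        + (V z l * cd l (cd j (fun y => U y j)) z - U z l * cd l (cd j (fun y => V y j)) z)) := by
    intro l
    rw [cd_hh hWIRT hW hℓ hU l hz, cd_hh hWIRT hW hℓ hV l hz, Finset.mul_sum, Finset.mul_sum,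
      ← Finset.sum_sub_distrib]
    apply Finset.sum_congr rfl
    intro j _
    ring
  rw [Finset.sum_congr rfl fun l _ => h1 l]
  simp only [Finset.sum_add_distrib]
  have t1 : ∑ l, ∑ j, cd j ℓ z *
      (V z l * cd l (fun y => U y j) z - U z l * cd l (fun y => V y j) z) = 0 := by
    rw [Finset.sum_comm]
    apply Finset.sum_eq_zero
    intro j _
    rw [← Finset.mul_sum, c1 j, mul_zero]
  have t2 : ∑ l, ∑ j, (V z l * U z j * cd l (cd j ℓ) z - U z l * V z j * cd l (cd j ℓ) z)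
      = 0 := by
    simp only [Finset.sum_sub_distrib]
    rw [sub_eq_zero]
    rw [Finset.sum_comm]
    apply Finset.sum_congr rfl
    intro l _
    apply Finset.sum_congr rfl
    intro j _
    rw [hsym]
    ring
  have t3 : ∑ l, ∑ j, (V z l * cd l (cd j (fun y => U y j)) z -
      U z l * cd l (cd j (fun y => V y j)) z) = 0 := by
    rw [Finset.sum_comm]
    exact c2
  rw [t1, t2, t3]
  ring

lemma cd_of_re {h : Cn n → ℂ} (hs : ContDiffOn ℝ ∞ h W) (hre : ∀ y ∈ W, (h y).re = 0)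
    (l : Fin n) {z : Cn n} (hz : z ∈ W) : cd l h z = - conj (cdb l h z) := by
  have h1 := ((hWIRT W hW h h hs hs).2.2.2.1 l z hz).1
  have h2 : cd l (fun y => conj (h y)) z = cd l (fun y => - h y) z := by
    apply cd_congr hW _ l hz
    intro y hy
    apply Complex.ext
    · simp [hre y hy]
    · simp
  rw [h2, cd_neg'] at h1
  rw [← h1]
  ring

end calculus

universe u

theorem rlt (hWIRT : S_WIRT) (hLMF : S_LMF) (hMU : S_MU.{u}) (hHVR : S_HVR) : S_RLT.{u} := by
  intro b N G _ c R Rel P Φ C H hF lam hPer m V hfam hkill k l z hz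
  obtain ⟨μ, hμs, hμpos, hμinv, hμLM⟩ := hMU c R Rel P Φ C H hF lam hPer
  have hW : IsOpen (Bd c 2) := isOpen_iUnion fun i => isOpen_ball
  have hsub : Bd c 2 ⊆ Bd c 3 := by
    intro y hy
    obtain ⟨i, hi⟩ := mem_iUnion.1 hy
    exact mem_iUnion.2 ⟨i, ball_subset_ball (by norm_num) hi⟩
  set ℓ : Cn b → ℂ := fun y => ((Real.log (μ y) : ℝ) : ℂ) with hℓdef
  have hℓr : ContDiffOn ℝ ∞ (fun y => Real.log (μ y)) (Bd c 2) :=
    hμs.log fun y hy => (hμpos y hy).ne'
  have hℓ : ContDiffOn ℝ ∞ ℓ (Bd c 2) := Complex.ofRealCLM.contDiff.comp_contDiffOn hℓr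
  have hV : ∀ k, DifferentiableOn ℂ (V k) (Bd c 2) := fun k => (hfam.holo k).mono hsub
  have hre : ∀ k, ∀ y ∈ Bd c 2, (hh ℓ (V k) y).re = 0 := by
    intro k y hy
    obtain ⟨i, hi⟩ := mem_iUnion.1 hy
    have hgen : InfGen c P i (V k) := by
      have h1 := hfam.gen i (Pi.single k 1)
      have h2 : (fun z => ∑ k', (((Pi.single k 1 : Fin m → ℝ) k' : ℝ) : ℂ) • V k' z) = V k := by
        funext z
        rw [Finset.sum_eq_single k]
        · simp
        · intro k' _ hk'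
          simp [Pi.single_eq_of_ne hk']
        · intro h
          exact absurd (Finset.mem_univ k) h
      rw [h2] at h1
      exact h1
    exact hHVR c R P Φ C hF.fol μ hμs hμpos hμinv i (V k) hgen y hi
  have hsm : ∀ k, ContDiffOn ℝ ∞ (hh ℓ (V k)) (Bd c 2) := fun k =>
    smooth_hh hWIRT hW hℓ (hV k)
  have hΦs : ContDiffOn ℝ ∞ Φ (Bd c 2) := by
    apply hF.fol.smooth.mono
    intro y hy
    obtain ⟨i, hi⟩ := mem_iUnion.1 hy
    refine mem_iUnion.2 ⟨i, ball_subset_ball ?_ hi⟩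
    have h1 := hF.fol.Rge
    have h2 := hF.fol.Cge
    linarith
  have hherm := (hLMF (Bd c 2) hW Φ hΦs).2.1 z hz
  -- the `cdb` derivative of the divergence
  have hcdb : ∀ k, ∀ j, cdb j (hh ℓ (V k)) z = ∑ i, LM Φ z i j * V k z i := by
    intro k j
    rw [cdb_hh hWIRT hW hℓ (hV k) j hz]
    have h1 : ∀ i, cd i (cdb j ℓ) z = LM Φ z i j -
        fderiv ℂ (tau lam) z (Pi.single i 1) * conj (fderiv ℂ (tau lam) z (Pi.single j 1)) /
          (((tau lam z).im ^ 2 : ℝ) : ℂ) := by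
      intro i
      have := hμLM z hz i j
      rw [← this]
      rfl
    have h2 : fderiv ℂ (tau lam) z (V k z) = ∑ i, fderiv ℂ (tau lam) z (Pi.single i 1) * V k z i := by
      have h3 : V k z = ∑ i, V k z i • (Pi.single i 1 : Cn b) := by
        ext i
        simp [Finset.sum_apply, Pi.single_apply]
      conv_lhs => rw [h3]
      rw [map_sum]
      apply Finset.sum_congr rfl
      intro i _
      rw [map_smul, smul_eq_mul, mul_comm]
    have h4 : ∑ i, fderiv ℂ (tau lam) z (Pi.single i 1) * V k z i = 0 := by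
      rw [← h2]; exact hkill k z (hsub hz)
    calc ∑ i, cd i (cdb j ℓ) z * V k z i
        = ∑ i, (LM Φ z i j * V k z i - (fderiv ℂ (tau lam) z (Pi.single i 1) * V k z i) *
            (conj (fderiv ℂ (tau lam) z (Pi.single j 1)) / (((tau lam z).im ^ 2 : ℝ) : ℂ))) := by
          apply Finset.sum_congr rfl
          intro i _
          rw [h1 i]
          ring
      _ = ∑ i, LM Φ z i j * V k z i := by
          rw [Finset.sum_sub_distrib, ← Finset.sum_mul, h4]
          ring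
  have hconj : ∀ i j, conj (LM Φ z i j) = LM Φ z j i := by
    intro i j
    exact hherm.apply j i
  have hcd : ∀ k, ∀ j, cd j (hh ℓ (V k)) z = - ∑ i, LM Φ z j i * conj (V k z i) := by
    intro k j
    rw [cd_of_re hWIRT hW (hsm k) (hre k) j hz, hcdb k j, map_sum]
    congr 1
    apply Finset.sum_congr rfl
    intro i _
    rw [map_mul, hconj]
  have hherm2 : ∀ k l, ∑ j, V k z j * cd j (hh ℓ (V l)) z = - hermi (LM Φ z) (V k z) (V l z) := by
    intro k l
    unfold hermi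
    rw [← Finset.sum_neg_distrib]
    apply Finset.sum_congr rfl
    intro j _
    rw [hcd l j, mul_neg, Finset.mul_sum]
    congr 1
    apply Finset.sum_congr rfl
    intro i _
    ring
  have hcomm := comm3 hWIRT hW hℓ (hV l) (hV k)
    (fun y hy => hfam.comm y (hsub hy) k l) hz
  rw [hherm2 k l, hherm2 l k] at hcomm
  have hsymm : hermi (LM Φ z) (V k z) (V l z) = hermi (LM Φ z) (V l z) (V k z) := by
    simpa using hcomm
  have hcj : conj (hermi (LM Φ z) (V k z) (V l z)) = hermi (LM Φ z) (V l z) (V k z) := by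
    unfold hermi
    simp only [map_sum, map_mul, hconj, Complex.conj_conj]
    rw [Finset.sum_comm]
    apply Finset.sum_congr rfl
    intro i _
    apply Finset.sum_congr rfl
    intro j _
    ring
  rw [← hsymm] at hcj
  exact Complex.conj_eq_iff_im.1 hcj

end Pool.Agent.Helper39.SP
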